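import Pool.Agent.Y819.ZF.Stm2
import Pool.Agent.Y592.ZF.GC

/-!
# Project ZF, second part: multigraphs whose signed number of colourings is not divisible by `p`
-/

set_option autoImplicit false
set_option linter.all false

namespace Pool.Agent.Y858.ZF

open MvPolynomial Finset Pool.Agent.Helper929 Pool.Agent.H604R2.LEC Pool.Agent.Y819.ZF

/-- every edge has exactly two different ends -/
theorem two_ends {V E : Type} {d : ℕ} (inc : V → Fin d → E)
    (hinj : ∀ v, Function.Injective (inc v)) (x : E)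
    (h : Nat.card {q : V × Fin d // inc q.1 q.2 = x} = 2) :
    ∃ v w : V, v ≠ w ∧ ∀ u, (∃ i, inc u i = x) ↔ (u = v ∨ u = w) := by
  obtain ⟨⟨q, hq⟩, ⟨q', hq'⟩, hne, huniv⟩ := Nat.card_eq_two_iff.1 h
  have hne' : q.1 ≠ q'.1 := by
    intro h1
    apply hne
    apply Subtype.ext
    refine Prod.ext h1 (hinj q.1 ?_)
    rw [hq]
    rw [h1]
    exact hq'.symm
  refine ⟨q.1, q'.1, hne', fun u => ⟨?_, ?_⟩⟩
  · rintro ⟨i, hi⟩
    have h2 : (⟨(u, i), hi⟩ : {q : V × Fin d // inc q.1 q.2 = x}) ∈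
        ({⟨q, hq⟩, ⟨q', hq'⟩} : Set {q : V × Fin d // inc q.1 q.2 = x}) := by
      rw [huniv]
      exact Set.mem_univ _
    rcases h2 with h2 | h2
    · left
      have h3 : (u, i) = q := congrArg Subtype.val h2
      rw [← h3]
    · right
      have h3 : (u, i) = q' := congrArg Subtype.val h2
      rw [← h3]
  · rintro (rfl | rfl)
    · exact ⟨_, hq⟩
    · exact ⟨_, hq'⟩

/-- the ends in increasing order -/
theorem lt_ends {V E : Type} {d n : ℕ} (inc : V → Fin d → E)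
    (hinj : ∀ v, Function.Injective (inc v)) (e : V ≃ Fin n) (x : E)
    (h : Nat.card {q : V × Fin d // inc q.1 q.2 = x} = 2) :
    ∃ ab : Fin n × Fin n, ab.1 < ab.2 ∧
      ∀ u, (∃ i, inc (e.symm u) i = x) ↔ (u = ab.1 ∨ u = ab.2) := by
  obtain ⟨v, w, hvw, huv⟩ := two_ends inc hinj x h
  have hne : e v ≠ e w := fun h => hvw (e.injective h)
  rcases lt_or_gt_of_ne hne with hlt | hlt
  · refine ⟨(e v, e w), hlt, fun u => ?_⟩
    rw [huv, Equiv.symm_apply_eq, Equiv.symm_apply_eq]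
  · refine ⟨(e w, e v), hlt, fun u => ?_⟩
    rw [huv, Equiv.symm_apply_eq, Equiv.symm_apply_eq, or_comm]

theorem main (h1 : S_CNT) (h2 : S_ISO) : S_SGN := by
  intro p hp V E _ _ inc hinj hcard hnd n e
  have hends : ∀ x : E, ∃ ab : Fin n × Fin n, ab.1 < ab.2 ∧
      ∀ u, (∃ i, inc (e.symm u) i = x) ↔ (u = ab.1 ∨ u = ab.2) := fun x =>
    lt_ends inc hinj e x (hcard x)
  choose te hlt hte using hends
  have hNN : Pool.Agent.W426.LE.NN (Equiv.refl (Fin (p - 2))) (fun a i => inc (e.symm a) i) =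
      Pool.Agent.W426.LE.NN (Equiv.refl (Fin (p - 2))) inc := by
    unfold Pool.Agent.W426.LE.NN
    refine Finset.sum_congr rfl fun x _ => ?_
    exact Equiv.prod_comp e.symm (fun v => Pool.Agent.W426.LE.sg (Equiv.refl (Fin (p - 2)))
      fun i => x (inc v i))
  obtain ⟨ε, hε, hN⟩ := h1 n (p - 2) E (fun x => (te x).1) (fun x => (te x).2)
    (fun a i => inc (e.symm a) i) (fun x => (hlt x).ne) (fun v => hinj _) (fun v x => hte x v)
  have hcc : cc (ZMod p) (p - 2) (fun x => (te x).1) (fun x => (te x).2) ≠ 0 := by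
    intro h0
    apply hnd
    rw [← hNN, hN, ← ZMod.intCast_zmod_eq_zero_iff_dvd, Int.cast_mul,
      Pool.Agent.Y592.ZF.cc_cast, h0, mul_zero]
  obtain ⟨μ, hμ⟩ : ∃ μ : V → V → ℕ, μ = fun v w =>
    Nat.card {x : E // v ≠ w ∧ (∃ i, inc v i = x) ∧ ∃ j, inc w j = x} := ⟨_, rfl⟩
  have hfib : ∀ y : Ed n, Nat.card {x : E // (⟨te x, hlt x⟩ : Ed n) = y} = nm μ e y := by
    intro y
    rw [hμ]
    refine Nat.card_congr (Equiv.subtypeEquivRight fun x => ?_)
    constructor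
    · rintro rfl
      refine ⟨fun h => (hlt x).ne (e.symm.injective h), (hte x _).2 (Or.inl rfl),
        (hte x _).2 (Or.inr rfl)⟩
    · rintro ⟨-, h3, h4⟩
      have h5 := y.2
      have h6 := hlt x
      have h7 := (hte x _).1 h3
      have h8 := (hte x _).1 h4
      rcases h7 with h7 | h7 <;> rcases h8 with h8 | h8
      · rw [h7, h8] at h5
        exact absurd h5 (lt_irrefl _)
      · exact Subtype.ext (Prod.ext h7.symm h8.symm)
      · rw [h7, h8] at h5
        exact absurd (h5.trans h6) (lt_irrefl _)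
      · rw [h7, h8] at h5
        exact absurd h5 (lt_irrefl _)
  have hψ : ∃ ψ : E ≃ ME (nm μ e), ∀ x, mτ (nm μ e) (ψ x) = (te x).1 ∧
      mη (nm μ e) (ψ x) = (te x).2 := by
    refine ⟨(Equiv.sigmaFiberEquiv (fun x => (⟨te x, hlt x⟩ : Ed n))).symm.trans
      (Equiv.sigmaCongrRight fun y => Finite.equivFinOfCardEq (hfib y)), fun x => ⟨rfl, rfl⟩⟩
  obtain ⟨ψ, hψ⟩ := hψ
  obtain ⟨ε', hε', hI⟩ := h2 (ZMod p) (p - 2) n E (ME (nm μ e)) (fun x => (te x).1)
    (fun x => (te x).2) (mτ (nm μ e)) (mη (nm μ e)) ψ (Equiv.refl _)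
    (fun x => Or.inl ⟨(hψ x).1, (hψ x).2⟩)
  rw [← hμ, hI]
  haveI : Nontrivial (ZMod p) := inferInstance
  rcases hε' with h | h
  · rw [h, Int.cast_one, one_mul]
    exact hcc
  · rw [h, Int.cast_neg, Int.cast_one, neg_one_mul, neg_ne_zero]
    exact hcc

end Pool.Agent.Y858.ZF
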